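import Mathlib
import Pool.Agent.H42.Game.Def

set_option autoImplicit false

namespace H42Game

open Finset

variable {c : ℕ}

/-- play of Player 1's moves `s` (most recent first) against `τ`; most recent first -/
def play (τ : List (Fin c) → Fin c) : List (Fin c) → List (Fin c)
  | [] => []
  | a :: s => τ (a :: play τ s) :: a :: play τ s

theorem play_length (τ : List (Fin c) → Fin c) (s : List (Fin c)) :
    (play τ s).length = 2 * s.length := by
  induction s with
  | nil => rfl
  | cons a s ih => simp only [play, List.length_cons, ih]; ring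

theorem play_drop (τ : List (Fin c) → Fin c) (m : ℕ) (s : List (Fin c)) :
    (play τ s).drop (2 * m) = play τ (s.drop m) := by
  induction m generalizing s with
  | zero => simp
  | succ m ih =>
    cases s with
    | nil => simp [play]
    | cons a s =>
      rw [show 2 * (m + 1) = 2 * m + 2 by ring]
      simp only [play, List.drop_succ_cons]
      exact ih s

theorem play_inj (τ : List (Fin c) → Fin c) {s t : List (Fin c)} (h : play τ s = play τ t) :
    s = t := by
  induction s generalizing t with
  | nil =>
    cases t with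
    | nil => rfl
    | cons a t => simp [play] at h
  | cons a s ih =>
    cases t with
    | nil => simp [play] at h
    | cons b t =>
      simp only [play, List.cons.injEq] at h
      rw [h.2.1, ih h.2.2]

/-- period `p` is active at `h` -/
def Act (p : ℕ) (h : List (Fin c)) : Prop :=
  2 * p ≤ h.length + 2 ∧ ∀ i, i + 2 < p → h[i]? = h[i + p]?

/-- letters Player 1 must not play -/
def Bad (h : List (Fin c)) (a : Fin c) : Prop :=
  h[0]? = some a ∨ h[1]? = some a ∨ ∃ p, 3 ≤ p ∧ Act p h ∧ h[p - 1]? = some a

open Classical in
/-- Player 1's good move lists -/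
noncomputable def S (τ : List (Fin c) → Fin c) : ℕ → Finset (List (Fin c))
  | 0 => {[]}
  | n + 1 => ((S τ n).sigma (fun s => univ.filter (fun a => ¬ Bad (play τ s) a))).image
      (fun x => x.2 :: x.1)

theorem mem_S_succ {τ : List (Fin c) → Fin c} {n : ℕ} {t : List (Fin c)} :
    t ∈ S τ (n + 1) ↔ ∃ s ∈ S τ n, ∃ a, ¬ Bad (play τ s) a ∧ t = a :: s := by
  classical
  simp only [S, mem_image, mem_sigma, mem_filter, mem_univ, true_and, Sigma.exists]
  constructor
  · rintro ⟨s, a, ⟨hs, ha⟩, rfl⟩
    exact ⟨s, hs, a, ha, rfl⟩
  · rintro ⟨s, hs, a, ha, rfl⟩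
    exact ⟨s, a, ⟨hs, ha⟩, rfl⟩

open Classical in
theorem card_S_succ (τ : List (Fin c) → Fin c) (n : ℕ) :
    (S τ (n + 1)).card =
      ∑ s ∈ S τ n, (univ.filter (fun a => ¬ Bad (play τ s) a)).card := by
  rw [S, card_image_of_injective, card_sigma]
  rintro ⟨s, a⟩ ⟨t, b⟩ h
  simp only [List.cons.injEq] at h
  obtain ⟨rfl, rfl⟩ := h
  rfl

theorem length_of_mem {τ : List (Fin c) → Fin c} {n : ℕ} {s : List (Fin c)} (h : s ∈ S τ n) :
    s.length = n := by
  induction n generalizing s with
  | zero => simp [S] at h; simp [h]
  | succ n ih =>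
    obtain ⟨t, ht, a, -, rfl⟩ := mem_S_succ.1 h
    simp [ih ht]

theorem drop_mem {τ : List (Fin c) → Fin c} {n j : ℕ} {s : List (Fin c)} (h : s ∈ S τ (n + j)) :
    s.drop j ∈ S τ n := by
  induction j generalizing s with
  | zero => simpa using h
  | succ j ih =>
    obtain ⟨t, ht, a, -, rfl⟩ := mem_S_succ.1 (show s ∈ S τ ((n + j) + 1) from h)
    simpa using ih ht

/-- consecutive moves of Player 1 differ -/
theorem inv_S {τ : List (Fin c) → Fin c} {n : ℕ} {s : List (Fin c)} (h : s ∈ S τ n) :
    ∀ i a, (play τ s)[2 * i + 1]? = some a → (play τ s)[2 * i + 3]? ≠ some a := by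
  induction n generalizing s with
  | zero => simp [S] at h; simp [h, play]
  | succ n ih =>
    obtain ⟨t, ht, a, ha, rfl⟩ := mem_S_succ.1 h
    intro i b hb
    cases i with
    | zero =>
      simp only [play, Nat.mul_zero, Nat.zero_add, List.getElem?_cons_succ,
        List.getElem?_cons_zero, Option.some.injEq] at hb ⊢
      subst hb
      intro h1
      exact ha (Or.inr (Or.inl h1))
    | succ i =>
      have e1 : 2 * (i + 1) + 1 = (2 * i + 1) + 1 + 1 := by ring
      have e3 : 2 * (i + 1) + 3 = (2 * i + 3) + 1 + 1 := by ring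
      rw [e1] at hb
      rw [e3]
      simp only [play, List.getElem?_cons_succ] at hb ⊢
      exact ih ht i b hb

/-- all words of a list of histories avoid the forbidden repetitions (most recent first) -/
def GoodL (h : List (Fin c)) : Prop :=
  (∀ j p, 2 ≤ p → 2 * p + j ≤ h.length → ∃ i < p, h[j + i]? ≠ h[j + i + p]?) ∧
  (∀ j, j + 3 ≤ h.length → ¬ (h[j]? = h[j + 1]? ∧ h[j + 1]? = h[j + 2]?))

theorem good_nil : GoodL ([] : List (Fin c)) := by
  constructor
  · intro j p hp h; simp at h; omega
  · intro j h; simp at h

theorem good_tail {a : Fin c} {h : List (Fin c)} (H : GoodL (a :: h)) : GoodL h := by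
  constructor
  · intro j p hp hl
    obtain ⟨i, hi, hne⟩ := H.1 (j + 1) p hp (by simp; omega)
    refine ⟨i, hi, ?_⟩
    rw [show j + 1 + i = (j + i) + 1 by ring, show (j + i) + 1 + p = (j + i + p) + 1 by ring] at hne
    simpa using hne
  · intro j hl hh
    apply H.2 (j + 1) (by simp; omega)
    simpa using hh

theorem good_cons {a b : Fin c} {h : List (Fin c)} (H : GoodL h) (hb : ¬ Bad h a) :
    GoodL (b :: a :: h) := by
  have key : ∀ p, 2 ≤ p → 2 * p ≤ h.length + 2 → h[p - 1]? = some a →
      (∀ i, i + 2 < p → h[i]? = h[i + p]?) → False := by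
    intro p hp hl h1 h2
    apply hb
    rcases Nat.lt_or_ge p 3 with h3 | h3
    · have : p = 2 := by omega
      subst this
      exact Or.inr (Or.inl h1)
    · exact Or.inr (Or.inr ⟨p, h3, ⟨hl, h2⟩, h1⟩)
  constructor
  · intro j p hp hl
    by_contra hcon
    push Not at hcon
    rcases j with _ | _ | j
    · simp only [List.length_cons] at hl
      have k1 := hcon 1 (by omega)
      rw [show 0 + 1 + p = (p - 1) + 1 + 1 by omega] at k1
      simp only [Nat.zero_add, List.getElem?_cons_succ, List.getElem?_cons_zero] at k1
      refine key p hp (by omega) k1.symm ?_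
      intro i hi
      have k2 := hcon (i + 2) (by omega)
      rw [show 0 + (i + 2) + p = (i + p) + 1 + 1 by ring, show 0 + (i + 2) = i + 1 + 1 by ring] at k2
      simpa using k2
    · simp only [List.length_cons] at hl
      have k1 := hcon 0 (by omega)
      rw [show 0 + 1 + 0 + p = (p - 1) + 1 + 1 by omega] at k1
      simp only [Nat.zero_add, Nat.add_zero, List.getElem?_cons_succ, List.getElem?_cons_zero] at k1
      refine key p hp (by omega) k1.symm ?_
      intro i hi
      have k2 := hcon (i + 1) (by omega)
      rw [show 0 + 1 + (i + 1) + p = (i + p) + 1 + 1 by ring,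
        show 0 + 1 + (i + 1) = i + 1 + 1 by ring] at k2
      simpa using k2
    · simp only [List.length_cons] at hl
      obtain ⟨i, hi, hne⟩ := H.1 j p hp (by omega)
      have k := hcon i hi
      apply hne
      rw [show j + 1 + 1 + i + p = (j + i + p) + 1 + 1 by ring,
        show j + 1 + 1 + i = (j + i) + 1 + 1 by ring] at k
      simpa using k
  · intro j hl hh
    rcases j with _ | _ | j
    · simp only [Nat.zero_add, List.getElem?_cons_succ, List.getElem?_cons_zero] at hh
      exact hb (Or.inl hh.2.symm)
    · have h1 := hh.1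
      simp only [Nat.zero_add, List.getElem?_cons_succ, List.getElem?_cons_zero] at h1
      exact hb (Or.inl h1.symm)
    · simp only [List.length_cons] at hl
      apply H.2 j (by omega)
      rw [show j + 1 + 1 + 1 = (j + 1) + 1 + 1 by ring, show j + 1 + 1 + 2 = (j + 2) + 1 + 1 by ring]
        at hh
      simpa using hh

theorem good_S {τ : List (Fin c) → Fin c} {n : ℕ} {s : List (Fin c)} (h : s ∈ S τ n) :
    GoodL (play τ s) := by
  induction n generalizing s with
  | zero => simp [S] at h; subst h; exact good_nil
  | succ n ih =>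
    obtain ⟨t, ht, a, ha, rfl⟩ := mem_S_succ.1 h
    exact good_cons (ih ht) ha

/-! ### Counting the forbidden letters -/

open Classical in
theorem card_three (A : Finset (Fin c)) (o1 o2 o3 : Option (Fin c))
    (h : ∀ a ∈ A, o1 = some a ∨ o2 = some a ∨ o3 = some a) : A.card ≤ 3 := by
  have hsub : A ⊆ o1.toFinset ∪ o2.toFinset ∪ o3.toFinset := by
    intro a ha
    rcases h a ha with h | h | h <;> simp [h]
  have hcard : ∀ o : Option (Fin c), o.toFinset.card ≤ 1 := by
    intro o; cases o <;> simp
  calc A.card ≤ _ := card_le_card hsub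
    _ ≤ (o1.toFinset ∪ o2.toFinset).card + o3.toFinset.card := card_union_le _ _
    _ ≤ (o1.toFinset.card + o2.toFinset.card) + o3.toFinset.card := by
        gcongr; exact card_union_le _ _
    _ ≤ 3 := by have := hcard o1; have := hcard o2; have := hcard o3; omega

open Classical in
theorem short_bad (h : List (Fin c)) (hinv : ∀ a, h[3]? = some a → h[5]? ≠ some a) :
    (univ.filter (fun a => h[0]? = some a ∨ h[1]? = some a ∨ (Act 3 h ∧ h[2]? = some a) ∨
      (Act 4 h ∧ h[3]? = some a) ∨ (Act 5 h ∧ h[4]? = some a))).card ≤ 3 := by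
  have a3 : Act 3 h → h[0]? = h[3]? := fun H => H.2 0 (by norm_num)
  have a4 : Act 4 h → h[0]? = h[4]? ∧ h[1]? = h[5]? := fun H => ⟨H.2 0 (by norm_num), H.2 1 (by norm_num)⟩
  have a5 : Act 5 h → h[0]? = h[5]? ∧ ∃ a, h[3]? = some a := fun H =>
    ⟨H.2 0 (by norm_num), by
      have hl : 3 < h.length := by have := H.1; omega
      exact ⟨h[3], List.getElem?_eq_getElem hl⟩⟩
  by_cases h3 : Act 3 h
  · have n5 : ¬ Act 5 h := by
      intro h5
      obtain ⟨e, a, ha⟩ := a5 h5
      apply hinv a ha
      rw [← e, a3 h3, ha]
    apply card_three _ h[0]? h[1]? h[2]?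
    intro a ha
    simp only [mem_filter, mem_univ, true_and] at ha
    rcases ha with h | h | h | h | h
    · exact Or.inl h
    · exact Or.inr (Or.inl h)
    · exact Or.inr (Or.inr h.2)
    · left; rw [a3 h3]; exact h.2
    · exact absurd h.1 n5
  · by_cases h4 : Act 4 h
    · by_cases h5 : Act 5 h
      · apply card_three _ h[0]? h[3]? h[0]?
        intro a ha
        simp only [mem_filter, mem_univ, true_and] at ha
        rcases ha with h | h | h | h | h
        · exact Or.inl h
        · left; rw [(a5 h5).1, ← (a4 h4).2]; exact h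
        · exact absurd h.1 h3
        · exact Or.inr (Or.inl h.2)
        · left; rw [(a4 h4).1]; exact h.2
      · apply card_three _ h[0]? h[1]? h[3]?
        intro a ha
        simp only [mem_filter, mem_univ, true_and] at ha
        rcases ha with h | h | h | h | h
        · exact Or.inl h
        · exact Or.inr (Or.inl h)
        · exact absurd h.1 h3
        · exact Or.inr (Or.inr h.2)
        · exact absurd h.1 h5
    · apply card_three _ h[0]? h[1]? h[4]?
      intro a ha
      simp only [mem_filter, mem_univ, true_and] at ha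
      rcases ha with h | h | h | h | h
      · exact Or.inl h
      · exact Or.inr (Or.inl h)
      · exact absurd h.1 h3
      · exact absurd h.1 h4
      · exact Or.inr (Or.inr h.2)

open Classical in
theorem card_bad (h : List (Fin c)) (hinv : ∀ a, h[3]? = some a → h[5]? ≠ some a) (K : ℕ)
    (hK : h.length ≤ 2 * K) :
    (univ.filter (fun a => Bad h a)).card ≤
      3 + ((range (2 * K)).filter (fun q => Act (q + 6) h)).card := by
  have hsub : univ.filter (fun a => Bad h a) ⊆
      (univ.filter (fun a => h[0]? = some a ∨ h[1]? = some a ∨ (Act 3 h ∧ h[2]? = some a) ∨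
      (Act 4 h ∧ h[3]? = some a) ∨ (Act 5 h ∧ h[4]? = some a))) ∪
      ((range (2 * K)).filter (fun q => Act (q + 6) h)).biUnion (fun q => (h[q + 5]?).toFinset) := by
    intro a ha
    simp only [mem_filter, mem_univ, true_and] at ha
    simp only [mem_union, mem_filter, mem_univ, true_and, mem_biUnion, mem_range,
      Option.mem_toFinset, Option.mem_def]
    rcases ha with h0 | h1 | ⟨p, hp, hA, hpa⟩
    · left; left; exact h0
    · left; right; left; exact h1
    · rcases Nat.lt_or_ge p 6 with h6 | h6
      · left
        interval_cases p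
        · right; right; left; exact ⟨hA, hpa⟩
        · right; right; right; left; exact ⟨hA, hpa⟩
        · right; right; right; right; exact ⟨hA, hpa⟩
      · right
        refine ⟨p - 6, ⟨?_, ?_⟩, ?_⟩
        · have := hA.1; omega
        · rw [Nat.sub_add_cancel h6]; exact hA
        · rw [show p - 6 + 5 = p - 1 by omega]; exact hpa
  calc _ ≤ _ := card_le_card hsub
    _ ≤ _ := card_union_le _ _
    _ ≤ 3 + _ := by
      gcongr
      · exact short_bad h hinv
      · calc _ ≤ ∑ q ∈ (range (2 * K)).filter (fun q => Act (q + 6) h),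
              (h[q + 5]?).toFinset.card := card_biUnion_le
          _ ≤ ∑ q ∈ (range (2 * K)).filter (fun q => Act (q + 6) h), 1 := by
              apply sum_le_sum
              intro q _
              cases h[q + 5]? <;> simp
          _ = _ := by simp

open Classical in
/-- few move lists have an active period `p` -/
theorem card_act (τ : List (Fin c) → Fin c) (n m p : ℕ) (hm : 2 * m + 2 ≤ p) :
    ((S τ (n + m)).filter (fun s => Act p (play τ s))).card ≤ (S τ n).card := by
  apply card_le_card_of_injOn (fun s => s.drop m)
  · intro s hs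
    simp only [coe_filter, Set.mem_ofPred_eq] at hs
    exact drop_mem hs.1
  · intro s hs t ht hst
    simp only [coe_filter, Set.mem_ofPred_eq] at hs ht
    simp only at hst
    apply play_inj τ
    have hd : (play τ s).drop (2 * m) = (play τ t).drop (2 * m) := by
      rw [play_drop, play_drop, hst]
    have hge : ∀ i, (play τ s)[2 * m + i]? = (play τ t)[2 * m + i]? := by
      intro i
      rw [← List.getElem?_drop, ← List.getElem?_drop, hd]
    apply List.ext_getElem?
    intro i
    rcases Nat.lt_or_ge i (2 * m) with h | h
    · rw [hs.2.2 i (by omega), ht.2.2 i (by omega)]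
      have := hge (i + p - 2 * m)
      rwa [show 2 * m + (i + p - 2 * m) = i + p by omega] at this
    · have := hge (i - 2 * m)
      rwa [show 2 * m + (i - 2 * m) = i by omega] at this

theorem geom (K : ℕ) :
    ∑ q ∈ range (2 * K), ((1:ℝ) / 2) ^ (q / 2 + 2) = (1 - (1 / 2) ^ K) := by
  induction K with
  | zero => simp
  | succ K ih =>
    rw [show 2 * (K + 1) = 2 * K + 1 + 1 by ring, sum_range_succ, sum_range_succ, ih,
      show 2 * K / 2 = K by omega, show (2 * K + 1) / 2 = K by omega]
    ring

theorem growth (hc : 6 ≤ c) (τ : List (Fin c) → Fin c) (n : ℕ) :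
    2 * ((S τ n).card : ℝ) ≤ (S τ (n + 1)).card := by
  classical
  induction n using Nat.strong_induction_on with
  | _ n ih =>
  -- comparison with earlier sets
  have hcmp : ∀ m j, j + m = n → ((S τ j).card : ℝ) ≤ (1 / 2) ^ m * (S τ n).card := by
    intro m
    induction m with
    | zero => intro j hj; simp at hj; simp [hj]
    | succ m ihm =>
      intro j hj
      have h1 := ihm (j + 1) (by omega)
      have h2 := ih j (by omega)
      rw [pow_succ]
      linarith
  set K := n with hKdef
  have hq : ∀ q, (((S τ n).filter (fun s => Act (q + 6) (play τ s))).card : ℝ) ≤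
      (1 / 2) ^ (q / 2 + 2) * (S τ n).card := by
    intro q
    rcases Nat.lt_or_ge n (q / 2 + 2) with h | h
    · have : (S τ n).filter (fun s => Act (q + 6) (play τ s)) = ∅ := by
        apply filter_eq_empty_iff.2
        intro s hs hA
        have h1 := hA.1
        rw [play_length, length_of_mem hs] at h1
        omega
      rw [this]
      simp
    · obtain ⟨j, rfl⟩ : ∃ j, n = j + (q / 2 + 2) := ⟨n - (q / 2 + 2), by omega⟩
      have h1 := card_act τ j (q / 2 + 2) (q + 6) (by omega)
      have h2 := hcmp (q / 2 + 2) j rfl
      calc _ ≤ ((S τ j).card : ℝ) := by exact_mod_cast h1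
        _ ≤ _ := h2
  have hsum : (∑ s ∈ S τ n, ((univ.filter (fun a => Bad (play τ s) a)).card : ℝ)) ≤
      4 * (S τ n).card := by
    calc (∑ s ∈ S τ n, ((univ.filter (fun a => Bad (play τ s) a)).card : ℝ))
        ≤ ∑ s ∈ S τ n, (3 + (((range (2 * K)).filter (fun q => Act (q + 6) (play τ s))).card : ℝ)) := by
          apply sum_le_sum
          intro s hs
          have := card_bad (play τ s) (fun a ha => inv_S hs 1 a ha) K
            (by rw [play_length, length_of_mem hs])
          exact_mod_cast this
      _ = 3 * (S τ n).card + ∑ s ∈ S τ n,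
            (((range (2 * K)).filter (fun q => Act (q + 6) (play τ s))).card : ℝ) := by
          rw [sum_add_distrib]; simp; ring
      _ = 3 * (S τ n).card + ∑ q ∈ range (2 * K),
            (((S τ n).filter (fun s => Act (q + 6) (play τ s))).card : ℝ) := by
          congr 1
          have : ∀ s, (((range (2 * K)).filter (fun q => Act (q + 6) (play τ s))).card : ℝ) =
              ∑ q ∈ range (2 * K), if Act (q + 6) (play τ s) then (1:ℝ) else 0 := by
            intro s; rw [card_filter]; push_cast; rfl
          simp_rw [this]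
          rw [sum_comm]
          apply sum_congr rfl
          intro q _
          rw [card_filter]; push_cast; rfl
      _ ≤ 3 * ((S τ n).card : ℝ) +
            ∑ q ∈ range (2 * K), ((1:ℝ) / 2) ^ (q / 2 + 2) * ((S τ n).card : ℝ) := by
          have := sum_le_sum (s := range (2 * K)) fun q _ => hq q
          linarith
      _ = 3 * ((S τ n).card : ℝ) + (1 - (1 / 2) ^ K) * ((S τ n).card : ℝ) := by
          rw [← sum_mul, geom]
      _ ≤ 4 * (S τ n).card := by
          have : (0:ℝ) ≤ (1 / 2) ^ K * (S τ n).card := by positivity
          linarith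
  have hc' : (6:ℝ) ≤ c := by exact_mod_cast hc
  have htot : (((S τ (n + 1)).card : ℝ)) = c * (S τ n).card -
      ∑ s ∈ S τ n, ((univ.filter (fun a => Bad (play τ s) a)).card : ℝ) := by
    rw [card_S_succ]
    push_cast
    rw [eq_sub_iff_add_eq, ← sum_add_distrib]
    have : ∀ s ∈ S τ n, (((univ.filter (fun a => ¬ Bad (play τ s) a)).card : ℝ) +
        ((univ.filter (fun a => Bad (play τ s) a)).card : ℝ)) = c := by
      intro s _
      have h := card_filter_add_card_filter_not (s := (univ : Finset (Fin c)))
        (fun a => Bad (play τ s) a)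
      rw [card_univ, Fintype.card_fin] at h
      have h' : ((univ.filter (fun a => Bad (play τ s) a)).card : ℝ) +
        ((univ.filter (fun a => ¬ Bad (play τ s) a)).card : ℝ) = c := by exact_mod_cast h
      linarith
    rw [sum_congr rfl this]
    simp
    ring
  rw [htot]
  have hnn : (0:ℝ) ≤ (S τ n).card := by positivity
  nlinarith

theorem S_nonempty (hc : 6 ≤ c) (τ : List (Fin c) → Fin c) (n : ℕ) : (S τ n).Nonempty := by
  have : (1:ℝ) ≤ (S τ n).card := by
    induction n with
    | zero => simp [S]
    | succ n ih => have := growth hc τ n; linarith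
  rw [← card_pos]
  have h : (0:ℝ) < (S τ n).card := by linarith
  exact_mod_cast h

end H42Game
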