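import Mathlib
import Pool.Agent.H42.Game.Def
import Pool.Agent.H42.Game.Upper

set_option autoImplicit false

namespace H42Game

variable {c : ℕ}

/-- Player 1 can survive `n` more rounds from history `h` (most recent first) -/
def Win : ℕ → List (Fin c) → Prop
  | 0, h => GoodL h
  | n + 1, h => GoodL h ∧ ∃ a, ∀ b, Win n (b :: a :: h)

theorem Win.good {n : ℕ} {h : List (Fin c)} (H : Win n h) : GoodL h := by
  cases n with
  | zero => exact H
  | succ n => exact H.1

theorem Win.mono {n : ℕ} {h : List (Fin c)} (H : Win (n + 1) h) : Win n h := by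
  induction n generalizing h with
  | zero => exact H.good
  | succ n ih =>
    obtain ⟨h1, a, ha⟩ := H
    exact ⟨h1, a, fun b => ih (ha b)⟩

theorem Win.mono' {n m : ℕ} (hnm : n ≤ m) {h : List (Fin c)} (H : Win m h) : Win n h := by
  induction m, hnm using Nat.le_induction with
  | base => exact H
  | succ m _ ih => exact ih H.mono

theorem win_all (hc : 6 ≤ c) (N : ℕ) : Win N ([] : List (Fin c)) := by
  classical
  by_contra hN
  have d : Fin c := ⟨0, by omega⟩
  let τ : List (Fin c) → Fin c := fun l =>
    if hb : ∃ b, ¬ Win (N - (l.length + 1) / 2) (b :: l) then hb.choose else d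
  have key : ∀ s : List (Fin c), s.length ≤ N → ¬ Win (N - s.length) (play τ s) := by
    intro s
    induction s with
    | nil => intro _; simpa [play] using hN
    | cons a s ih =>
      intro hs
      rw [List.length_cons] at hs
      have h1 := ih (by omega)
      obtain ⟨m, hm⟩ : ∃ m, N - s.length = m + 1 := ⟨N - s.length - 1, by omega⟩
      rw [hm] at h1
      have h2 : ∃ b, ¬ Win m (b :: a :: play τ s) := by
        by_contra hcon
        push Not at hcon
        apply h1
        exact ⟨good_tail (good_tail (hcon d).good), a, hcon⟩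
      have hlen : N - ((a :: play τ s).length + 1) / 2 = m := by
        rw [List.length_cons, play_length]; omega
      have h3 : ¬ Win m (τ (a :: play τ s) :: a :: play τ s) := by
        have hex : ∃ b, ¬ Win (N - ((a :: play τ s).length + 1) / 2) (b :: a :: play τ s) := by
          rw [hlen]; exact h2
        have := hex.choose_spec
        have e : τ (a :: play τ s) = hex.choose := by
          simp only [τ]
          rw [dif_pos hex]
        rw [e, ← hlen]
        exact this
      rw [List.length_cons, show N - (s.length + 1) = m by omega]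
      exact h3
  obtain ⟨s, hs⟩ := S_nonempty hc τ N
  have hl := length_of_mem hs
  have h1 := key s hl.le
  rw [hl, Nat.sub_self] at h1
  exact h1 (good_S hs)

/-- Player 1 can survive forever -/
def WinAll (h : List (Fin c)) : Prop := ∀ n, Win n h

theorem WinAll.step {h : List (Fin c)} (H : WinAll h) : ∃ a, ∀ b, WinAll (b :: a :: h) := by
  by_contra hcon
  simp only [WinAll] at hcon
  push Not at hcon
  choose b n hbn using hcon
  obtain ⟨-, a, ha⟩ := H (Finset.univ.sup n + 1)
  exact hbn a ((ha (b a)).mono' (Finset.le_sup (Finset.mem_univ a)))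

/-- history of `x` before move `n`, most recent first -/
def hst (x : ℕ → Fin c) (n : ℕ) : List (Fin c) := ((List.range n).map x).reverse

theorem hst_succ (x : ℕ → Fin c) (n : ℕ) : hst x (n + 1) = x n :: hst x n := by
  simp [hst, List.range_succ]

theorem hst_get (x : ℕ → Fin c) (n i : ℕ) (h : i < n) : (hst x n)[i]? = some (x (n - 1 - i)) := by
  induction n generalizing i with
  | zero => omega
  | succ n ih =>
    rw [hst_succ]
    cases i with
    | zero => simp
    | succ i =>
      rw [List.getElem?_cons_succ, ih i (by omega)]
      congr 2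
      omega

theorem hst_length (x : ℕ → Fin c) (n : ℕ) : (hst x n).length = n := by simp [hst]

theorem no_rep {x : ℕ → Fin c} (H : ∀ n, GoodL (hst x (2 * n))) : ¬ HasRep x := by
  rintro ⟨l, k, d, hk, hd, h3, hrep⟩
  rcases Nat.lt_or_ge d 2 with h | h
  · have hd1 : d = 1 := by omega
    subst hd1
    have e1 := hrep 1 (by omega) 0 (by norm_num)
    have e2 := hrep 2 (by omega) 0 (by norm_num)
    simp only [Nat.mul_one, Nat.add_zero] at e1 e2
    apply (H (l + 3)).2 (2 * (l + 3) - (l + 3)) (by rw [hst_length]; omega)
    rw [hst_get _ _ _ (by omega), hst_get _ _ _ (by omega), hst_get _ _ _ (by omega)]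
    rw [show 2 * (l + 3) - 1 - (2 * (l + 3) - (l + 3)) = l + 2 by omega,
      show 2 * (l + 3) - 1 - (2 * (l + 3) - (l + 3) + 1) = l + 1 by omega,
      show 2 * (l + 3) - 1 - (2 * (l + 3) - (l + 3) + 2) = l by omega, e1, e2]
    simp
  · obtain ⟨i, hi, hne⟩ := (H (l + 2 * d)).1 (2 * (l + 2 * d) - (l + 2 * d)) d h
      (by rw [hst_length]; omega)
    apply hne
    rw [hst_get _ _ _ (by omega), hst_get _ _ _ (by omega)]
    have e1 := hrep 1 (by omega) (d - 1 - i) (by omega)
    rw [show 2 * (l + 2 * d) - 1 - (2 * (l + 2 * d) - (l + 2 * d) + i) =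
        l + 1 * d + (d - 1 - i) by omega,
      show 2 * (l + 2 * d) - 1 - (2 * (l + 2 * d) - (l + 2 * d) + i + d) = l + (d - 1 - i) by omega,
      e1]

theorem upper (hc : 6 ≤ c) : PlayerOneWins c := by
  classical
  have d : Fin c := ⟨0, by omega⟩
  refine ⟨fun l => if h : WinAll l.reverse then h.step.choose else d, ?_⟩
  intro x hx
  have key : ∀ n, WinAll (hst x (2 * n)) := by
    intro n
    induction n with
    | zero =>
      intro N
      have : hst x (2 * 0) = [] := by simp [hst]
      rw [this]
      exact win_all hc N
    | succ n ih =>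
      rw [show 2 * (n + 1) = 2 * n + 1 + 1 by ring, hst_succ, hst_succ]
      have h1 : x (2 * n) = ih.step.choose := by
        rw [hx n]
        simp only
        rw [dif_pos (show WinAll ((List.range (2 * n)).map x).reverse from ih)]
        rfl
      have h2 := ih.step.choose_spec
      rw [← h1] at h2
      exact h2 _
  exact no_rep fun n => key n 0

end H42Game
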